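import Pool.Agent.LRG.StmtsC

/-! LRG, row SPZ: the specialization at an integral point. -/

set_option autoImplicit false

open Polynomial

namespace Pool.Agent.LRG.H85

theorem chi_monic85 {S : Type} [CommRing S] [Nontrivial S] (n : ℕ) (hn : 0 < n) (e : ℤ)
    (y : Fin (n - 1) → S) : (chi n e y).Monic := by
  unfold chi
  rw [add_assoc]
  refine Polynomial.monic_X_pow_add ?_
  refine lt_of_le_of_lt (Polynomial.degree_add_le _ _) (max_lt ?_ ?_)
  · refine lt_of_le_of_lt (Polynomial.degree_sum_le _ _)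
      ((Finset.sup_lt_iff (WithBot.bot_lt_coe n)).2 fun j _ => ?_)
    refine lt_of_le_of_lt (Polynomial.degree_C_mul_X_pow_le _ _) ?_
    have := j.2
    exact WithBot.coe_lt_coe.2 (by omega : j.1 + 1 < n)
  · exact lt_of_le_of_lt Polynomial.degree_C_le (WithBot.coe_lt_coe.2 hn)

theorem chi_map85 {S T : Type} [CommRing S] [CommRing T] (f : S →+* T) (n : ℕ) (e : ℤ)
    (y : Fin (n - 1) → S) : (chi n e y).map f = chi n e (fun j => f (y j)) := by
  unfold chi
  simp [Polynomial.map_sum]

theorem spz (lyo : CX.LyoStmt) : CX.SpzStmt := by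
  intro Ω _ n r p z₀ e η x hn hroots z hz
  let a : MvPolynomial (Ix n r) ℤ →+* Ω :=
    (MvPolynomial.aeval η : MvPolynomial (Ix n r) ℤ →ₐ[ℤ] Ω).toRingHom
  have haX : ∀ s, a (MvPolynomial.X s) = η s := fun s => MvPolynomial.aeval_X η s
  have hηA : ∀ s, η s ∈ a.range := fun s => ⟨MvPolynomial.X s, haX s⟩
  have hAB : a.range ≤ CX.Rx η x := by
    rintro _ ⟨q, rfl⟩
    induction q using MvPolynomial.induction_on with
    | C c =>
      have h1 : a (MvPolynomial.C c) = (c : Ω) := by
        change MvPolynomial.aeval η (MvPolynomial.C c) = (c : Ω)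
        rw [MvPolynomial.aeval_C]
        exact eq_intCast _ c
      rw [h1]
      exact intCast_mem _ c
    | add p q hp hq =>
      rw [map_add]
      exact add_mem hp hq
    | mul_X p s hp =>
      rw [map_mul, haX]
      exact mul_mem hp (Subring.subset_closure (Or.inl ⟨s, rfl⟩))
  have hint : ∀ b ∈ CX.Rx η x, IsIntegral a.range b := by
    intro b hb
    refine Subring.closure_induction (p := fun b _ => IsIntegral a.range b) ?_ ?_ ?_ ?_ ?_ ?_ hb
    · rintro _ (⟨s, rfl⟩ | ⟨⟨i, j⟩, rfl⟩)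
      · exact isIntegral_algebraMap (A := Ω) (x := (⟨η s, hηA s⟩ : a.range))
      · refine ⟨chiI e (fun s => (z₀ s : a.range) + (p : a.range) ^ 2 * ⟨η s, hηA s⟩) i,
          chi_monic85 n hn _ _, ?_⟩
        rw [← Polynomial.eval_map]
        have h2 : (chiI e (fun s => (z₀ s : a.range) + (p : a.range) ^ 2 * ⟨η s, hηA s⟩) i).map
            (algebraMap a.range Ω) = chiI e (fun s => (z₀ s : Ω) + (p : Ω) ^ 2 * η s) i := by
          unfold chiI
          rw [chi_map85]
          rfl
        rw [h2, hroots i, Polynomial.eval_prod]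
        refine Finset.prod_eq_zero (Finset.mem_univ j) ?_
        simp
    · exact isIntegral_zero
    · exact isIntegral_one
    · intro u v _ _ hu hv
      exact hu.add hv
    · intro u _ hu
      exact hu.neg
    · intro u v _ _ hu hv
      exact hu.mul hv
  let g0 : MvPolynomial (Ix n r) ℤ →+* ℂ := (Int.castRingHom ℂ).comp (MvPolynomial.eval z)
  have hk : RingHom.ker a.rangeRestrict ≤ RingHom.ker g0 := by
    intro q hq
    rw [RingHom.mem_ker] at hq ⊢
    have h3 : MvPolynomial.aeval η q = 0 := congrArg Subtype.val hq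
    change ((MvPolynomial.eval z q : ℤ) : ℂ) = 0
    rw [hz q h3]
    exact Int.cast_zero
  let f : a.range →+* ℂ :=
    a.rangeRestrict.liftOfSurjective a.rangeRestrict_surjective ⟨g0, hk⟩
  have hf : ∀ q, f (a.rangeRestrict q) = g0 q := fun q =>
    RingHom.liftOfRightInverse_comp_apply a.rangeRestrict _ _ ⟨g0, hk⟩ q
  obtain ⟨g, hg⟩ := lyo Ω a.range (CX.Rx η x) hAB hint ℂ f
  refine ⟨g, fun s h => ?_⟩
  have h4 := hg (a.rangeRestrict (MvPolynomial.X s))
  rw [hf] at h4
  have h5 : Subring.inclusion hAB (a.rangeRestrict (MvPolynomial.X s)) = ⟨η s, h⟩ :=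
    Subtype.ext (haX s)
  rw [h5] at h4
  rw [h4]
  change ((MvPolynomial.eval z (MvPolynomial.X s) : ℤ) : ℂ) = (z s : ℂ)
  rw [MvPolynomial.eval_X]

end Pool.Agent.LRG.H85
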