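import Pool.Agent.LRG.StmtsR

/-!
# Squad LRG (MP_5f2860_nt), row TRM: end of the selection loop
-/

set_option autoImplicit false

open Finset

namespace Pool.Agent.LRG.H85

open Pool.Agent.LRG.R

theorem dep_eq {N m : ℕ} (c : Fin m → Fin N) (i : Fin m) {E : ℕ} (hE : 1 ≤ E)
    (T : Finset (Fin N → ℤ)) : Dep (Fin.cons (c i) c : Fin (m + 1) → Fin N) E T := by
  refine ⟨MvPolynomial.X 0 - MvPolynomial.X i.succ, ?_, ?_, ?_⟩
  · rw [sub_ne_zero]
    intro h
    have h1 := MvPolynomial.X_injective h
    exact (Fin.succ_ne_zero i) h1.symm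
  · refine (MvPolynomial.totalDegree_sub _ _).trans ?_
    rw [MvPolynomial.totalDegree_X, MvPolynomial.totalDegree_X]
    simpa using hE
  · intro x _
    rw [map_sub, MvPolynomial.eval_X, MvPolynomial.eval_X, Fin.cons_zero, Fin.cons_succ, sub_self]

theorem trm : TrmStatement := by
  intro N m c E L S hE hL hrob
  have key : ∀ J : Finset (Fin N), ∃ T ⊆ S, (S.card : ℝ) ≤ L ^ J.card * (T.card : ℝ) ∧
      ∀ l ∈ J, Dep (Fin.cons l c : Fin (m + 1) → Fin N) E T := by
    intro J
    induction J using Finset.induction_on with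
    | empty => exact ⟨S, Subset.refl _, by simp, by simp⟩
    | insert l J hl ih =>
      obtain ⟨T, hT, hc, hd⟩ := ih
      have hJ : J.card + 1 ≤ N := by
        have h := Finset.card_le_univ (insert l J)
        rw [card_insert_of_notMem hl, Fintype.card_fin] at h
        exact h
      have hT0 : (0 : ℝ) ≤ T.card := Nat.cast_nonneg _
      have hLJ : 0 ≤ L ^ J.card := by positivity
      by_cases hlc : l ∈ Set.range c
      · obtain ⟨i, rfl⟩ := hlc
        refine ⟨T, hT, ?_, ?_⟩
        · rw [card_insert_of_notMem hl, pow_succ, mul_assoc]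
          refine hc.trans (mul_le_mul_of_nonneg_left ?_ hLJ)
          nlinarith
        · intro l' hl'
          rcases mem_insert.mp hl' with rfl | h
          · exact dep_eq c i hE T
          · exact hd l' h
      · have h2 : (S.card : ℝ) ≤ L ^ N * (T.card : ℝ) := by
          refine hc.trans (mul_le_mul_of_nonneg_right ?_ hT0)
          exact pow_le_pow_right₀ hL (by omega)
        have h1 := hrob l hlc T hT h2
        unfold Rob at h1
        push Not at h1
        obtain ⟨T', hT', hc', hd'⟩ := h1
        refine ⟨T', hT'.trans hT, ?_, ?_⟩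
        · rw [card_insert_of_notMem hl, pow_succ, mul_assoc]
          exact hc.trans (mul_le_mul_of_nonneg_left hc' hLJ)
        · intro l' hl'
          rcases mem_insert.mp hl' with rfl | h
          · exact hd'
          · exact (hd l' h).mono le_rfl hT'
  obtain ⟨T, hT, hc, hd⟩ := key Finset.univ
  refine ⟨T, hT, ?_, fun l => hd l (mem_univ l)⟩
  rwa [card_univ, Fintype.card_fin] at hc

end Pool.Agent.LRG.H85
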